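import Pool.Agent.PFD.StmtsD4

/-!
Squad PFD, rows KLT and LRX (helper81): the equality of the dimensions of the centres, and the
assembly of the final lift.
-/

set_option autoImplicit false

open scoped BigOperators

noncomputable section

namespace Pool.Agent.PFD.D4.H81

open Pool.Agent.PFC.B1 (BiM FS Sep Split)
open Pool.Agent.PFD
open Pool.Agent.PFD.D2
open Pool.Agent.PFD.D2b
open Pool.Agent.PFD.D4

/-- the trace, on the centre, of a central element which is a scalar up to a nilpotent -/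
theorem tr_center {K A : Type} [Field K] [Ring A] [Algebra K A] [Module.Finite K A] (z : A) (k : K)
    (hz : ∀ a, z * a = a * z) (hn : IsNilpotent (z + algebraMap K A k)) :
    ∃ f : Subalgebra.center K A →ₗ[K] Subalgebra.center K A, (∀ w, (f w : A) = z * w) ∧
      LinearMap.trace K _ f = - (k * (Module.finrank K (Subalgebra.center K A) : K)) := by
  let z' : Subalgebra.center K A := ⟨z, Subalgebra.mem_center_iff.2 (fun b => (hz b).symm)⟩
  have hz' : (z' : A) = z := rfl
  refine ⟨LinearMap.mulLeft K z', fun w => ?_, ?_⟩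
  · rw [LinearMap.mulLeft_apply]
    rfl
  · have h1 : IsNilpotent (z' + algebraMap K (Subalgebra.center K A) k) := by
      obtain ⟨n, hn⟩ := hn
      refine ⟨n, Subtype.ext ?_⟩
      have h2 : (((z' + algebraMap K (Subalgebra.center K A) k) ^ n : Subalgebra.center K A) : A) =
          (z + algebraMap K A k) ^ n := rfl
      rw [h2, hn]
      rfl
    have h2 : IsNilpotent (LinearMap.mulLeft K (z' + algebraMap K (Subalgebra.center K A) k)) :=
      (LinearMap.isNilpotent_mulLeft_iff (R := K) _).2 h1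
    have h3 : LinearMap.mulLeft K (z' + algebraMap K (Subalgebra.center K A) k) =
        LinearMap.mulLeft K z' + k • (LinearMap.id : _ →ₗ[K] Subalgebra.center K A) := by
      ext w
      simp [add_mul, Algebra.smul_def]
    have h4 := (LinearMap.isNilpotent_trace_of_isNilpotent h2).eq_zero
    rw [h3, map_add, map_smul, LinearMap.trace_id, smul_eq_mul] at h4
    exact eq_neg_of_add_eq_zero_left h4

/-- row KLT -/
theorem klt (zet : ZetStmt) (fot : Pool.Agent.PFD.FotStmt) : KltStmt := by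
  intro K B A I J N _ _ _ _ _ _ _ _ _ _ _ _ D
  obtain ⟨De, ν, h1, h2, h3, h4, h5⟩ := zet K B A I J N D
  have hDc : ∀ b, De * b = b * De := by
    intro b
    rw [h1, sub_mul, mul_sub, h3 b, Algebra.commutes]
  obtain ⟨hc, hf⟩ := fot K B A I J N D.c D.d D.sp D.s D.cs D.ds D.ort D.v De D.vm hDc h4
  obtain ⟨f, f1, f2⟩ := tr_center (D.s.rt (D.sp.j De)) (D.wt : K) (fun a => (hc a).symm) h5
  have h6 : IsNilpotent (De + algebraMap K B (D.wt : K)) := by
    rw [h1, sub_add_cancel]
    exact h2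
  obtain ⟨g, g1, g2⟩ := tr_center De (D.wt : K) hDc h6
  have h7 := hf f g f1 g1
  rw [f2, g2] at h7
  have h8 : (D.wt : K) ≠ 0 := Nat.cast_ne_zero.2 (Nat.pos_iff_ne_zero.1 D.wp)
  exact Nat.cast_injective (R := K) (mul_left_cancel₀ h8 (neg_injective h7))

/-- row LRX -/
theorem lrx (rfl' : RflStmt) (unm : UnmStmt) (ulf : UlfStmt) (frm : FrmStmt) (ort : OrtStmt) :
    LrxStmt := by
  intro R F Γ Γ0 A A1 W I N _ _ c _ _ _ _ _ _ _ _ _ _ _ _ _ _ _ _ _ D f j0 pr0 mu la x y
    p1 p2 p3 m1 m2 m3 ctr e1 e2 unt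
  obtain ⟨s, sx, sy⟩ := rfl' R F Γ Γ0 A A1 N c f la.fb j0 pr0 la.j la.pr x y la.pr_j la.pr_l
    la.pr_r la.cj la.cp e1 e2
  have hs1 : IsUnit (s.rt 1) := by
    apply unm R F A A1 c la.fb
    have h := unt 1 (fun γ => by rw [one_mul, mul_one]) isUnit_one
    have h2 : la.fb.q (s.rt 1) = ∑ k, x k * j0 1 * y k := by
      unfold RF.rt
      rw [map_sum]
      refine Finset.sum_congr rfl fun k _ => ?_
      rw [map_mul, map_mul, sx, sy, map_one, map_one]
    rw [h2]
    exact h
  obtain ⟨u, uc, uu, hu⟩ := ulf R F Γ Γ0 A W I c D f j0 pr0 mu p1 p2 m1 m2 m3 ctr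
  obtain ⟨tA, t1, t2⟩ := frm R F Γ Γ0 A A1 W I N c D f la.fb j0 pr0 la.j la.pr s u mu la.pr_l
    la.pr_r la.cp hs1 uc m1 m2 hu
  obtain ⟨la', u1, u1', hfb, hj, uc1, uu1, ht⟩ := ort R F Γ Γ0 A A1 W I c D f j0 pr0 mu la tA
    p1 p2 p3 m1 m2 m3 t1 t2
  obtain ⟨s', sx', sy'⟩ := rfl' R F Γ Γ0 A A1 N c f la'.fb j0 pr0 la'.j la'.pr x y la'.pr_j
    la'.pr_l la'.pr_r la'.cj la'.cp e1 e2
  have key : ∀ w : Γ, la'.fb.q (s'.rt (la'.j w)) = ∑ k, x k * j0 (f.q w) * y k := by
    intro w
    unfold RF.rt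
    rw [map_sum]
    refine Finset.sum_congr rfl fun k _ => ?_
    rw [map_mul, map_mul, sx', sy', la'.cj]
  have uu2 : u1' * u1 = 1 := by rw [← uc1, uu1]
  have uc' : ∀ γ, u1' * γ = γ * u1' := by
    intro γ
    calc u1' * γ = u1' * γ * (u1 * u1') := by rw [uu1, mul_one]
      _ = u1' * (γ * u1) * u1' := by simp only [mul_assoc]
      _ = u1' * (u1 * γ) * u1' := by rw [uc1]
      _ = (u1' * u1) * γ * u1' := by simp only [mul_assoc]
      _ = γ * u1' := by rw [uu2, one_mul]
  refine ⟨{ la' with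
    N := N
    fN := inferInstance
    rf := s'
    tA := tA
    ts := t1
    u := u1
    u' := u1'
    uc := uc1
    uu := uu1
    ort := ht
    un1 := ?_
    unu := ?_ }⟩
  · apply unm R F A A1 c la'.fb
    have h := key 1
    rw [map_one] at h
    rw [h]
    refine unt _ (fun γ => ?_) ?_
    · rw [map_one, one_mul, mul_one]
    · rw [map_one]; exact isUnit_one
  · apply unm R F A A1 c la'.fb
    have h := key u1'
    rw [h]
    refine unt _ (fun γ => ?_) ?_
    · obtain ⟨g, rfl⟩ := f.surj γ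
      rw [← map_mul, ← map_mul, uc']
    · have h3 : f.q u1' * f.q u1 = 1 := by rw [← map_mul, uu2, map_one]
      have h4 : f.q u1 * f.q u1' = 1 := by rw [← map_mul, uu1, map_one]
      exact ⟨⟨f.q u1', f.q u1, h3, h4⟩, rfl⟩

end Pool.Agent.PFD.D4.H81
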