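import Pool.Agent.PFD.D1.Key

/-!
Squad PFD, rows CON, DPP (helper81).
-/

set_option autoImplicit false

open scoped BigOperators

namespace Pool.Agent.PFD.H81

open Pool.Agent.PFC.B1

section

variable {R B A I J N : Type} [CommRing R] [Ring B] [Algebra R B] [Ring A] [Algebra R A]
    [Fintype I] [Fintype J] [Fintype N] (D : Net R B A I J N)

theorem Ry_def (v : B →ₗ[R] B) (a : A) : D.Ry v a =
    ∑ s, ∑ i, ∑ l, D.T (D.u i * D.x s * D.u l * a) • (D.u' l * D.y s * D.j (v (D.c.b' i))) := rfl

theorem Ly_def (v : B →ₗ[R] B) (a : A) : D.Ly v a =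
    ∑ s, ∑ i, ∑ l, D.T (D.u i * D.x s * D.u l * a) • (D.j (v (D.c.b' l)) * D.y s * D.u' i) := rfl

theorem Ry_add (v : B →ₗ[R] B) (a a' : A) : D.Ry v (a + a') = D.Ry v a + D.Ry v a' := by
  simp only [Ry_def, mul_add, D.T_add, add_smul, Finset.sum_add_distrib]

theorem Ly_add (v : B →ₗ[R] B) (a a' : A) : D.Ly v (a + a') = D.Ly v a + D.Ly v a' := by
  simp only [Ly_def, mul_add, D.T_add, add_smul, Finset.sum_add_distrib]

theorem Ry_smul (v : B →ₗ[R] B) (r : R) (a : A) : D.Ry v (r • a) = r • D.Ry v a := by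
  simp only [Ry_def, mul_smul_comm, D.T_smul, Finset.smul_sum, smul_smul]

theorem Ly_smul (v : B →ₗ[R] B) (r : R) (a : A) : D.Ly v (r • a) = r • D.Ly v a := by
  simp only [Ly_def, mul_smul_comm, D.T_smul, Finset.smul_sum, smul_smul]

theorem Ry_left (v : B →ₗ[R] B) (b : B) (a : A) : D.Ry v (D.j b * a) = D.j b * D.Ry v a := by
  simp only [Ry_def, Finset.mul_sum]
  refine Finset.sum_congr rfl fun s _ => Finset.sum_congr rfl fun i _ => ?_
  have hB : Bil R (fun p q : A => D.T (D.u i * D.x s * p * a) •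
      (q * D.y s * D.j (v (D.c.b' i)))) :=
    ⟨fun p p' q => by simp only [mul_add, add_mul, D.T_add, add_smul],
      fun p q q' => by simp only [add_mul, smul_add],
      fun r p q => by simp only [mul_smul_comm, smul_mul_assoc, D.T_smul, mul_smul],
      fun r p q => by rw [smul_mul_assoc, smul_mul_assoc, smul_comm]⟩
  have h := D.n2 hB b
  simp only [mul_assoc] at h ⊢
  rw [h]
  exact Finset.sum_congr rfl fun l _ => (mul_smul_comm _ _ _).symm

theorem Ly_right (v : B →ₗ[R] B) (a : A) (b : B) : D.Ly v (a * D.j b) = D.Ly v a * D.j b := by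
  simp only [Ly_def, Finset.sum_mul]
  refine Finset.sum_congr rfl fun s _ => ?_
  rw [Finset.sum_comm]
  conv_rhs => rw [Finset.sum_comm]
  refine Finset.sum_congr rfl fun l _ => ?_
  have hB : Bil R (fun p q : A => D.T (p * D.x s * D.u l * a) •
      (D.j (v (D.c.b' l)) * D.y s * q)) :=
    ⟨fun p p' q => by simp only [add_mul, D.T_add, add_smul],
      fun p q q' => by simp only [mul_add, smul_add],
      fun r p q => by simp only [smul_mul_assoc, D.T_smul, mul_smul],
      fun r p q => by rw [mul_smul_comm, smul_comm]⟩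
  have h := D.n1 hB b
  calc ∑ i, D.T (D.u i * D.x s * D.u l * (a * D.j b)) • (D.j (v (D.c.b' l)) * D.y s * D.u' i)
      = ∑ i, D.T (D.j b * D.u i * D.x s * D.u l * a) •
          (D.j (v (D.c.b' l)) * D.y s * D.u' i) := by
        refine Finset.sum_congr rfl fun i _ => ?_
        rw [← mul_assoc, D.T_comm]
        simp only [mul_assoc]
    _ = ∑ i, D.T (D.u i * D.x s * D.u l * a) •
          (D.j (v (D.c.b' l)) * D.y s * (D.u' i * D.j b)) := h
    _ = ∑ i, D.T (D.u i * D.x s * D.u l * a) •
          (D.j (v (D.c.b' l)) * D.y s * D.u' i) * D.j b := by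
        refine Finset.sum_congr rfl fun i _ => ?_
        rw [smul_mul_assoc]
        simp only [mul_assoc]

theorem Ry_right (v : B →ₗ[R] B) {De : B} (hv : D.Der v De) (a : A) (b : B) :
    D.Ry v (a * D.j b) = D.Ry v a * D.j b + (a - D.j (D.pr a)) * D.j (v b) := by
  rw [← D.cq a, Ry_def, Ry_def, Finset.sum_mul, Finset.sum_mul, ← Finset.sum_add_distrib]
  refine Finset.sum_congr rfl fun s _ => ?_
  rw [Finset.sum_comm, Finset.sum_comm (f := fun i l => D.T (D.u i * D.x s * D.u l * a) •
      (D.u' l * D.y s * D.j (v (D.c.b' i)))), Finset.sum_comm (f := fun i l =>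
      D.T (D.u i * D.x s * D.u l * a) • (D.u' l * D.y s * D.u' i)), Finset.sum_mul, Finset.sum_mul,
    ← Finset.sum_add_distrib]
  refine Finset.sum_congr rfl fun l _ => ?_
  have hB : Bil R (fun p q : B => D.T (D.j p * D.x s * D.u l * a) •
      (D.u' l * D.y s * D.j (v q))) :=
    ⟨fun p p' q => by simp only [map_add, add_mul, D.T_add, add_smul],
      fun p q q' => by simp only [map_add, mul_add, smul_add],
      fun r p q => by simp only [map_smul, smul_mul_assoc, D.T_smul, mul_smul],
      fun r p q => by rw [map_smul, map_smul, mul_smul_comm, smul_comm]⟩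
  have h := D.m1 hB b
  calc ∑ i, D.T (D.u i * D.x s * D.u l * (a * D.j b)) • (D.u' l * D.y s * D.j (v (D.c.b' i)))
      = ∑ i, D.T (D.j (b * D.c.b i) * D.x s * D.u l * a) •
          (D.u' l * D.y s * D.j (v (D.c.b' i))) := by
        refine Finset.sum_congr rfl fun i _ => ?_
        rw [← mul_assoc, D.T_comm, map_mul]
        simp only [mul_assoc]
        rfl
    _ = ∑ i, D.T (D.j (D.c.b i) * D.x s * D.u l * a) •
          (D.u' l * D.y s * D.j (v (D.c.b' i * b))) := h
    _ = _ := by
        rw [Finset.sum_mul, Finset.sum_mul, ← Finset.sum_add_distrib]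
        refine Finset.sum_congr rfl fun i _ => ?_
        rw [hv.der, map_add, map_mul, map_mul, mul_add, smul_add, smul_mul_assoc, smul_mul_assoc]
        simp only [mul_assoc]
        rfl

theorem Ly_left (v : B →ₗ[R] B) {De : B} (hv : D.Der v De) (b : B) (a : A) :
    D.Ly v (D.j b * a) = D.j (v b) * (a - D.j (D.pr a)) + D.j b * D.Ly v a := by
  rw [← D.cq a, Ly_def, Ly_def, Finset.mul_sum, Finset.mul_sum, ← Finset.sum_add_distrib]
  refine Finset.sum_congr rfl fun s _ => ?_
  rw [Finset.mul_sum, Finset.mul_sum, ← Finset.sum_add_distrib]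
  refine Finset.sum_congr rfl fun i _ => ?_
  have hB : Bil R (fun p q : B => D.T (D.u i * D.x s * D.j p * a) •
      (D.j (v q) * D.y s * D.u' i)) :=
    ⟨fun p p' q => by simp only [map_add, mul_add, add_mul, D.T_add, add_smul],
      fun p q q' => by simp only [map_add, add_mul, smul_add],
      fun r p q => by simp only [map_smul, mul_smul_comm, smul_mul_assoc, D.T_smul, mul_smul],
      fun r p q => by rw [map_smul, map_smul, smul_mul_assoc, smul_mul_assoc, smul_comm]⟩
  have h := D.m2 hB b
  calc ∑ l, D.T (D.u i * D.x s * D.u l * (D.j b * a)) • (D.j (v (D.c.b' l)) * D.y s * D.u' i)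
      = ∑ l, D.T (D.u i * D.x s * D.j (D.c.b l * b) * a) •
          (D.j (v (D.c.b' l)) * D.y s * D.u' i) := by
        refine Finset.sum_congr rfl fun l _ => ?_
        rw [map_mul]
        simp only [mul_assoc]
        rfl
    _ = ∑ l, D.T (D.u i * D.x s * D.j (D.c.b l) * a) •
          (D.j (v (b * D.c.b' l)) * D.y s * D.u' i) := h
    _ = _ := by
        rw [Finset.mul_sum, Finset.mul_sum, ← Finset.sum_add_distrib]
        refine Finset.sum_congr rfl fun l _ => ?_
        rw [hv.der, map_add, map_mul, map_mul, add_mul, add_mul, smul_add, mul_smul_comm,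
          mul_smul_comm]
        simp only [mul_assoc]
        rfl

end

/-- row CON -/
theorem con : ConStmt := by
  intro R B A I J N _ _ _ _ _ _ _ _ D v De hv
  refine ⟨Ry_add D v, Ry_smul D v, Ry_left D v, Ry_right D v hv, ?_, ?_, Ly_add D v, Ly_smul D v,
    Ly_right D v, Ly_left D v hv⟩
  · rw [Ry_def]
    refine Finset.sum_eq_zero fun s _ => Finset.sum_eq_zero fun i _ => Finset.sum_eq_zero
      fun l _ => ?_
    rw [mul_one, D.T_pr]
    have h := D.pr_lr (D.c.b i) (D.c.b l) (D.x s)
    rw [D.px, mul_zero, zero_mul] at h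
    have h2 : D.pr (D.u i * D.x s * D.u l) = 0 := h
    rw [h2, map_zero, zero_smul]
  · intro a
    rw [Ry_def, map_sum]
    refine Finset.sum_eq_zero fun s _ => ?_
    rw [map_sum]
    refine Finset.sum_eq_zero fun i _ => ?_
    rw [map_sum]
    refine Finset.sum_eq_zero fun l _ => ?_
    rw [map_smul]
    have h := D.pr_lr (D.c.b' l) (v (D.c.b' i)) (D.y s)
    rw [D.py, mul_zero, zero_mul] at h
    have h2 : D.pr (D.u' l * D.y s * D.j (v (D.c.b' i))) = 0 := h
    rw [h2, smul_zero]

/-- row DPP -/
theorem dpp : DppStmt := by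
  intro R B A I J N _ _ _ _ _ _ _ _ D z _
  -- the right side
  have hR : D.H4 D.x D.y D.x D.y (Lz R z) (I1 R B) (I1 R B) (I1 R B) =
      ∑ s, ∑ r, ∑ i, ∑ l, ∑ k, D.T (D.x s * D.u i * D.x r * D.u l * D.y s * D.u k * D.y r *
        (D.j z * D.u' i * D.u' l * D.u' k)) := by
    unfold Net.H4
    refine Finset.sum_congr rfl fun s _ => Finset.sum_congr rfl fun r _ =>
      Finset.sum_congr rfl fun i _ => Finset.sum_congr rfl fun l _ =>
      Finset.sum_congr rfl fun k _ => ?_
    have h1 : D.j z * D.u' i * D.u' l * D.u' k =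
        ∑ m, D.c.lam (z * D.c.b' i * D.c.b' l * D.c.b' k * D.c.b' m) • D.u m := by
      have h2 : D.j z * D.u' i * D.u' l * D.u' k = D.j (z * D.c.b' i * D.c.b' l * D.c.b' k) := by
        rw [map_mul, map_mul, map_mul]
        rfl
      rw [h2]
      conv_lhs => rw [← D.m4b (z * D.c.b' i * D.c.b' l * D.c.b' k), map_sum]
      exact Finset.sum_congr rfl fun m _ => map_smul _ _ _
    rw [h1, Finset.mul_sum, D.T_sum]
    refine Finset.sum_congr rfl fun m _ => ?_
    rw [mul_smul_comm, D.T_smul]
    rfl
  rw [hR]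
  refine Finset.sum_congr rfl fun s _ => ?_
  rw [Finset.sum_comm]
  refine Finset.sum_congr rfl fun r _ => ?_
  rw [Finset.sum_comm]
  refine Finset.sum_congr rfl fun i _ => ?_
  -- first move, on `l`
  have h1 : ∀ k, ∑ l, D.T (D.j z * (D.u k * D.x s * (D.u i * D.x r * D.u' l * D.u' i) *
      D.y s * D.u' k) * D.u l * D.y r) = ∑ l, D.T (D.x s * D.u i * D.x r * D.u' l * D.y s *
        (D.u' k * (D.u' i * D.u l)) * D.y r * D.j z * D.u k) := by
    intro k
    have hB : Bil R (fun p q : A => D.T (D.x s * D.u i * D.x r * q * D.y s * (D.u' k * p) *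
        D.y r * D.j z * D.u k)) :=
      ⟨fun p p' q => by simp only [mul_add, add_mul, D.T_add],
        fun p q q' => by simp only [mul_add, add_mul, D.T_add],
        fun r p q => by simp only [mul_smul_comm, smul_mul_assoc, D.T_smul, smul_eq_mul],
        fun r p q => by simp only [mul_smul_comm, smul_mul_assoc, D.T_smul, smul_eq_mul]⟩
    have h2 := D.n1 hB (D.c.b' i)
    calc ∑ l, D.T (D.j z * (D.u k * D.x s * (D.u i * D.x r * D.u' l * D.u' i) *
          D.y s * D.u' k) * D.u l * D.y r)
        = ∑ l, D.T (D.x s * D.u i * D.x r * (D.u' l * D.j (D.c.b' i)) * D.y s *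
            (D.u' k * D.u l) * D.y r * D.j z * D.u k) := by
          refine Finset.sum_congr rfl fun l _ => ?_
          have h3 : D.j z * (D.u k * D.x s * (D.u i * D.x r * D.u' l * D.u' i) *
              D.y s * D.u' k) * D.u l * D.y r = (D.j z * D.u k) * (D.x s * D.u i * D.x r *
              (D.u' l * D.j (D.c.b' i)) * D.y s * (D.u' k * D.u l) * D.y r) := by
            simp only [mul_assoc]
            rfl
          rw [h3, D.T_comm]
          simp only [mul_assoc]
      _ = _ := h2.symm
  have h2 : ∀ l, ∑ k, D.T (D.x s * D.u i * D.x r * D.u' l * D.y s *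
        (D.u' k * (D.u' i * D.u l)) * D.y r * D.j z * D.u k) =
      ∑ k, D.T (D.x s * D.u i * D.x r * D.u' l * D.y s * D.u k * D.y r * D.j z *
        (D.u' i * D.u l * D.u' k)) := by
    intro l
    have hB : Bil R (fun p q : A => D.T (D.x s * D.u i * D.x r * D.u' l * D.y s * q * D.y r *
        D.j z * p)) :=
      ⟨fun p p' q => by simp only [mul_add, D.T_add],
        fun p q q' => by simp only [mul_add, add_mul, D.T_add],
        fun r p q => by simp only [mul_smul_comm, D.T_smul, smul_eq_mul],
        fun r p q => by simp only [mul_smul_comm, smul_mul_assoc, D.T_smul, smul_eq_mul]⟩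
    have h3 := D.n1 hB (D.c.b' i * D.c.b l)
    rw [map_mul] at h3
    have hB2 : Bil R (fun p q : A => D.T (D.x s * D.u i * D.x r * D.u' l * D.y s * q * D.y r *
        D.j z * (D.u' i * D.u l * p))) :=
      ⟨fun p p' q => by simp only [mul_add, D.T_add],
        fun p q q' => by simp only [mul_add, add_mul, D.T_add],
        fun r p q => by simp only [mul_smul_comm, D.T_smul, smul_eq_mul],
        fun r p q => by simp only [mul_smul_comm, smul_mul_assoc, D.T_smul, smul_eq_mul]⟩
    exact h3.symm.trans (D.n3 hB2)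
  rw [Finset.sum_congr rfl fun k _ => h1 k, Finset.sum_comm, Finset.sum_congr rfl fun l _ => h2 l]
  -- last move, on `l`
  rw [Finset.sum_comm]
  conv_rhs => rw [Finset.sum_comm]
  refine Finset.sum_congr rfl fun k _ => ?_
  have hB : Bil R (fun p q : A => D.T (D.x s * D.u i * D.x r * q * D.y s * D.u k * D.y r *
      D.j z * (D.u' i * p * D.u' k))) :=
    ⟨fun p p' q => by simp only [mul_add, add_mul, D.T_add],
      fun p q q' => by simp only [mul_add, add_mul, D.T_add],
      fun r p q => by simp only [mul_smul_comm, smul_mul_assoc, D.T_smul, smul_eq_mul],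
      fun r p q => by simp only [mul_smul_comm, smul_mul_assoc, D.T_smul, smul_eq_mul]⟩
  refine (D.n3 hB).trans ?_
  refine Finset.sum_congr rfl fun l _ => ?_
  simp only [mul_assoc]

end Pool.Agent.PFD.H81
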