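import Pool.Agent.PFD.StmtsD1

/-!
Squad PFD, row FOT (helper81): the first order theorem.
-/

set_option autoImplicit false

open scoped BigOperators

namespace Pool.Agent.PFD.H81

open Pool.Agent.PFC.B1

/-- row FOT -/
theorem fot (ntx : NtxStmt) (rtx : RtxStmt) (rtu : RtuStmt) (trc : TrcStmt) (nid : NidStmt) :
    FotStmt := by
  intro K B A I J N _ _ _ _ _ _ _ _ _ _ _ c d sp s hcs hds hort v De hder hcen hdiv
  obtain ⟨D, hDc, hDd, hj, hpr⟩ := ntx K B A I J c d sp hcs hds hort
  revert s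
  rw [← hj, ← hpr]
  intro s
  obtain ⟨s0, hs0⟩ := rtx K B A I J J D
  have hcomm : ∀ b, D.j b * D.j De = D.j De * D.j b := by
    intro b
    rw [← map_mul, ← map_mul, hcen]
  obtain ⟨h1, h2, -⟩ := rtu K B A N (Option (J × I)) D.j D.pr s s0 (D.j De) hcomm
  have hDer : D.Der v De := by
    refine ⟨hder, hcen, ?_⟩
    rw [hDc]
    exact hdiv
  refine ⟨h2, ?_⟩
  intro f g hf hg
  have h3 := trc K B A I J J D De f g hcen (fun w => by rw [hf w, h1, hs0]) hg
  have h4 := nid K B A I J J D v De hDer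
  rw [h3, add_assoc, h4, add_zero]

end Pool.Agent.PFD.H81
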