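import Pool.Agent.PFD.StmtsD6b

/-!
Squad PFD, rows COC, UNL, CVS (helper81).
-/

set_option autoImplicit false

open scoped BigOperators TensorProduct

namespace Pool.Agent.PFD.D6.H81

open Pool.Agent.PFC
open Pool.Agent.PFC.B5a (FvtStmt TrsStmt BkiStmt FdbStmt Du)

/-- row COC -/
theorem coc : CocStmt := by
  intro F V E A _ _ _ _ _ _ φ α n n' c h
  have hcan : ∀ (a b : F) (e : E), a • n e = b • n e → a = b := by
    intro a b e hab
    have h1 := congrArg (fun z => z * n' e) hab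
    simp only [smul_mul_assoc, h.ri] at h1
    rw [← Algebra.algebraMap_eq_smul_one, ← Algebra.algebraMap_eq_smul_one] at h1
    exact (algebraMap F A).injective h1
  have hne : ∀ e f, c e f ≠ 0 := by
    intro e f h0
    have h1 := h.mul e f
    rw [h0, zero_smul] at h1
    have h2 : n' e * (n e * n f) * n' f = 1 := by
      rw [← mul_assoc, h.li, one_mul, h.ri]
    rw [h1, mul_zero, zero_mul] at h2
    exact zero_ne_one h2
  refine ⟨⟨fun e f => Units.mk0 (c e f) (hne e f), ?_, ?_, ?_⟩, fun e f => rfl⟩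
  · intro e
    apply Units.ext
    have h1 := h.mul 1 e
    rw [h.one, one_mul, one_mul] at h1
    refine hcan _ _ e ?_
    change c 1 e • n e = (1 : F) • n e
    rw [one_smul]
    exact h1.symm
  · intro e
    apply Units.ext
    have h1 := h.mul e 1
    rw [h.one, mul_one, mul_one] at h1
    refine hcan _ _ e ?_
    change c e 1 • n e = (1 : F) • n e
    rw [one_smul]
    exact h1.symm
  · intro e f g
    apply Units.ext
    apply hcan _ _ (e * f * g)
    change (c e f * c (e * f) g) • n (e * f * g) = (c f g * c e (f * g)) • n (e * f * g)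
    have h1 : c e (f * g) • n (e * f * g) = n e * n (f * g) := by
      rw [mul_assoc e f g, ← h.mul]
    have h2 : c (e * f) g • n (e * f * g) = n (e * f) * n g := (h.mul (e * f) g).symm
    have h3 : c e f • (n (e * f) * n g) = n e * n f * n g := by
      rw [← smul_mul_assoc, ← h.mul e f]
    have h4 : c f g • (n e * n (f * g)) = n e * (n f * n g) := by
      rw [← mul_smul_comm, ← h.mul f g]
    rw [mul_smul, mul_smul, h1, h2, h3, h4, mul_assoc]

/-- row UNL -/
theorem unl : UnlStmt := by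
  intro bki F V A _ _ _ _ _ α x x' y hloc h1 hx hx' hcom hy
  obtain ⟨b1, b2, b3⟩ := bki F V A α ⊤
  have hmem : ∀ z : A, z ∈ Cz F α ⊤ ↔ ∀ u : V, α u * z = z * α u := by
    intro z
    unfold Cz
    rw [Subalgebra.mem_centralizer_iff]
    constructor
    · intro h u
      exact h (α u) ⟨u, trivial, rfl⟩
    · rintro h _ ⟨u, -, rfl⟩
      exact h u
  have hxL : x ∈ Cz F α ⊤ := (hmem x).2 fun u => (hcom u).symm
  have hx'L : x' ∈ Cz F α ⊤ := by
    rw [hmem]
    intro u
    calc α u * x' = x' * x * (α u * x') := by rw [hx', one_mul]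
      _ = x' * (x * α u) * x' := by simp only [mul_assoc]
      _ = x' * (α u * x) * x' := by rw [hcom]
      _ = x' * α u * (x * x') := by simp only [mul_assoc]
      _ = x' * α u := by rw [hx, mul_one]
  have hyL : y ∈ Cz F α ⊤ := by
    have h2 := (Cz F α ⊤).add_mem (b2 _ hy) hxL
    rwa [sub_add_cancel] at h2
  have hwL : -(y - x) ∈ Cz F α ⊤ := (Cz F α ⊤).neg_mem (b2 _ hy)
  have hsum : (⟨x' * y, (Cz F α ⊤).mul_mem hx'L hyL⟩ : Cz F α ⊤) +
      ⟨x' * -(y - x), (Cz F α ⊤).mul_mem hx'L hwL⟩ = 1 := by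
    apply Subtype.ext
    change x' * y + x' * -(y - x) = 1
    rw [← mul_add, ← hx']
    congr 1
    abel
  rcases IsLocalRing.isUnit_or_isUnit_of_add_one hsum with hu | hu
  · have h2 : IsUnit (x' * y) := hu.map (Cz F α ⊤).val
    have h3 : IsUnit x := ⟨⟨x, x', hx, hx'⟩, rfl⟩
    have h4 : y = x * (x' * y) := by rw [← mul_assoc, hx, one_mul]
    rw [h4]
    exact h3.mul h2
  · exfalso
    obtain ⟨v, hv⟩ := hu
    apply h1
    have h2 : (x' * -(y - x)) * ((v⁻¹ : (Cz F α ⊤)ˣ) : Cz F α ⊤).1 = 1 := by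
      have h3 : ((v : Cz F α ⊤) * ((v⁻¹ : (Cz F α ⊤)ˣ) : Cz F α ⊤)).1 = (1 : Cz F α ⊤).1 := by
        rw [Units.mul_inv]
      rw [hv] at h3
      exact h3
    rw [← h2]
    refine (b3 _ (((v⁻¹ : (Cz F α ⊤)ˣ) : Cz F α ⊤).2) _ ?_).2
    exact (b3 _ hx'L _ (Submodule.neg_mem _ hy)).1

/-- the relations `(a s) ⊗ b = a ⊗ (s b)` -/
def rels {F A : Type} [Field F] [Ring A] [Algebra F A] (S : Subalgebra F A) :
    Submodule F (A ⊗[F] A) :=
  Submodule.span F {z | ∃ a b, ∃ s ∈ S, z = (a * s) ⊗ₜ[F] b - a ⊗ₜ[F] (s * b)}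

/-- row CVS -/
theorem cvs : CvsStmt := by
  intro F Γ A κ _ _ _ _ _ _ S j u v hS h1 h2
  refine ⟨⟨u, v, h1, fun X _ B hB x => ?_⟩⟩
  have h3 := h2 ((A ⊗[F] A) ⧸ rels S) ((TensorProduct.mk F A A).compr₂ (rels S).mkQ)
    (fun a b s hs => by
      show (rels S).mkQ ((a * s) ⊗ₜ[F] b) = (rels S).mkQ (a ⊗ₜ[F] (s * b))
      rw [← sub_eq_zero, ← map_sub, Submodule.mkQ_apply, Submodule.Quotient.mk_eq_zero]
      exact Submodule.subset_span ⟨a, b, s, hs, rfl⟩) x
  have h4 : (∑ k, (x * u k) ⊗ₜ[F] v k) - ∑ k, u k ⊗ₜ[F] (v k * x) ∈ rels S := by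
    rw [← Submodule.Quotient.mk_eq_zero, ← Submodule.mkQ_apply, map_sub, sub_eq_zero, map_sum,
      map_sum]
    exact h3
  have hbs : ∀ (a b s : A), s ∈ S → B (a * s) b = B a (s * b) := by
    intro a b s hs
    obtain ⟨γ, rfl⟩ := (hS s).1 hs
    exact hB a γ b
  have hbal : ∀ (r : F) (m n : A), B (r • m) n = B m (r • n) := by
    intro r m n
    have h := hbs m n (algebraMap F A r) (S.algebraMap_mem r)
    rw [Algebra.smul_def, Algebra.smul_def, Algebra.commutes, h]
  let Φ : A ⊗[F] A →+ X := TensorProduct.liftAddHom B hbal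
  have hΦ : ∀ a b, Φ (a ⊗ₜ[F] b) = B a b := fun a b => TensorProduct.liftAddHom_tmul B hbal a b
  have h5 : ∀ z ∈ rels S, ∀ r : F, Φ (r • z) = 0 := by
    intro z hz
    unfold rels at hz
    induction hz using Submodule.span_induction with
    | mem z hz =>
      intro r
      obtain ⟨a, b, s, hs, rfl⟩ := hz
      rw [smul_sub, map_sub, TensorProduct.smul_tmul', TensorProduct.smul_tmul', hΦ, hΦ,
        ← smul_mul_assoc, hbs _ _ _ hs, sub_self]
    | zero => intro r; rw [smul_zero, map_zero]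
    | add x y _ _ hx hy => intro r; rw [smul_add, map_add, hx, hy, add_zero]
    | smul a x _ hx => intro r; rw [smul_smul]; exact hx _
  have h6 := h5 _ h4 1
  rw [one_smul, map_sub, map_sum, map_sum, sub_eq_zero] at h6
  simp only [hΦ] at h6
  exact h6

end Pool.Agent.PFD.D6.H81
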